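import Pool.Agent.Y303.SK.Stm

/-! Project SK: elementary properties of the main modes. -/

open Set Filter Topology MeasureTheory Metric

set_option autoImplicit false

namespace Pool.Agent.Y841.SK

open Pool.Agent.Y5 (E3)
open Pool.Agent.Y303.SK

/-! ### change of variables -/

theorem cov (p : E3) {r : ℝ} (hr : 0 < r) (g : E3 → ℝ) :
    ∫ x, g (r⁻¹ • (x - p)) = r ^ 3 * ∫ x, g x := by
  have h1 : ∫ x, g (r⁻¹ • (x - p)) = ∫ x, g (r⁻¹ • x) :=
    integral_sub_right_eq_self (fun y => g (r⁻¹ • y)) p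
  rw [h1, Measure.integral_comp_inv_smul_of_nonneg _ _ hr.le]
  simp

/-- the affine map -/
noncomputable def hom (p : E3) (r : ℝ) (hr : 0 < r) : E3 ≃ₜ E3 :=
  (Homeomorph.addRight (-p)).trans (Homeomorph.smulOfNeZero r⁻¹ (inv_ne_zero hr.ne'))

theorem hom_apply (p : E3) (r : ℝ) (hr : 0 < r) (x : E3) : hom p r hr x = r⁻¹ • (x - p) := by
  simp [hom, sub_eq_add_neg]

theorem sc_eq (p : E3) (r : ℝ) (hr : 0 < r) (F : E3 → E3) :
    sc p r F = fun x => (r * √r)⁻¹ • (F ∘ hom p r hr) x := by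
  funext x
  simp [sc, hom_apply]

theorem supp_sc (p : E3) {r : ℝ} (hr : 0 < r) (F : E3 → E3) :
    tsupport (sc p r F) ⊆ {x | r⁻¹ • (x - p) ∈ tsupport F} := by
  rw [sc_eq p r hr]
  refine (tsupport_smul_subset_right (fun _ => (r * √r)⁻¹) (F ∘ hom p r hr)).trans ?_
  rw [tsupport_comp_eq_preimage]
  intro x hx
  simpa [hom_apply] using hx

theorem smooth_sc (p : E3) (r : ℝ) {F : E3 → E3} (hF : ContDiff ℝ (⊤ : ℕ∞) F) :
    ContDiff ℝ (⊤ : ℕ∞) (sc p r F) := by
  unfold sc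
  fun_prop

theorem cpt_sc (p : E3) {r : ℝ} (hr : 0 < r) {F : E3 → E3} (hF : HasCompactSupport F) :
    HasCompactSupport (sc p r F) := by
  rw [sc_eq p r hr]
  exact (hF.comp_homeomorph (hom p r hr)).smul_left (f := fun _ => (r * √r)⁻¹)

theorem fderiv_sc (p : E3) (r : ℝ) {F : E3 → E3} (hF : ContDiff ℝ (⊤ : ℕ∞) F) (x v : E3) :
    fderiv ℝ (sc p r F) x v = ((r * √r)⁻¹ * r⁻¹) • fderiv ℝ F (r⁻¹ • (x - p)) v := by
  have hd : DifferentiableAt ℝ F (r⁻¹ • (x - p)) :=
    (hF.differentiable (by simp)).differentiableAt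
  have h1 : HasFDerivAt (fun x : E3 => r⁻¹ • (x - p)) (r⁻¹ • ContinuousLinearMap.id ℝ E3) x :=
    ((hasFDerivAt_id x).sub_const p).const_smul r⁻¹
  have h2 : HasFDerivAt (sc p r F)
      ((r * √r)⁻¹ • ((fderiv ℝ F (r⁻¹ • (x - p))).comp (r⁻¹ • ContinuousLinearMap.id ℝ E3))) x :=
    (hd.hasFDerivAt.comp x h1).const_smul (r * √r)⁻¹
  rw [h2.fderiv]
  simp [smul_smul]

theorem dvg_sc (p : E3) (r : ℝ) {F : E3 → E3} (hF : ContDiff ℝ (⊤ : ℕ∞) F) (x : E3) :
    dvg (sc p r F) x = ((r * √r)⁻¹ * r⁻¹) * dvg F (r⁻¹ • (x - p)) := by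
  unfold dvg
  rw [Finset.mul_sum]
  refine Finset.sum_congr rfl fun i _ => ?_
  rw [fderiv_sc p r hF]
  simp

theorem cs_sc {Ω U : Set E3} (p : E3) {r : ℝ} (hr : 0 < r) {F : E3 → E3} (hF : CS Ω F)
    (hU : ∀ x, r⁻¹ • (x - p) ∈ Ω → x ∈ U) : CS U (sc p r F) where
  smooth := smooth_sc p r hF.smooth
  cpt := cpt_sc p hr hF.cpt
  supp := fun x hx => hU x (hF.supp (supp_sc p hr F hx))
  dv := fun x => by rw [dvg_sc p r hF.smooth, hF.dv, mul_zero]

theorem fd_comb {v w : E3 → E3} (hv : ContDiff ℝ (⊤ : ℕ∞) v) (hw : ContDiff ℝ (⊤ : ℕ∞) w)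
    (a b : ℝ) (x : E3) :
    fderiv ℝ (fun x => a • v x + b • w x) x = a • fderiv ℝ v x + b • fderiv ℝ w x := by
  have hd := (hv.differentiable (by simp)).differentiableAt (x := x)
  have hd' := (hw.differentiable (by simp)).differentiableAt (x := x)
  exact ((hd.hasFDerivAt.const_smul a).add (hd'.hasFDerivAt.const_smul b)).fderiv

theorem int3 {f g h : E3 → ℝ} (hf : Integrable f) (hg : Integrable g) (hh : Integrable h)
    (x y z : ℝ) :
    ∫ t, (x * f t + y * g t + z * h t) = (x * ∫ t, f t) + (y * ∫ t, g t) + z * ∫ t, h t := by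
  rw [integral_add (f := fun t => x * f t + y * g t) (g := fun t => z * h t)
    ((hf.const_mul x).add (hg.const_mul y)) (hh.const_mul z),
    integral_add (f := fun t => x * f t) (g := fun t => y * g t) (hf.const_mul x)
      (hg.const_mul y), integral_const_mul, integral_const_mul, integral_const_mul]

theorem cs_comb {Ω : Set E3} {v w : E3 → E3} (hv : CS Ω v) (hw : CS Ω w) (a b : ℝ) :
    CS Ω (fun x => a • v x + b • w x) where
  smooth := (hv.smooth.const_smul a).add (hw.smooth.const_smul b)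
  cpt := (hv.cpt.smul_left (f := fun _ => a)).add (hw.cpt.smul_left (f := fun _ => b))
  supp := by
    refine (tsupport_add _ _).trans (union_subset ?_ ?_)
    · exact (tsupport_smul_subset_right (fun _ => a) v).trans hv.supp
    · exact (tsupport_smul_subset_right (fun _ => b) w).trans hw.supp
  dv := fun x => by
    have h := fd_comb hv.smooth hw.smooth a b x
    have h1 := hv.dv x
    have h2 := hw.dv x
    unfold dvg at h1 h2 ⊢
    rw [h]
    simp only [_root_.add_apply, _root_.smul_apply, PiLp.add_apply,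
      PiLp.smul_apply, smul_eq_mul]
    rw [Finset.sum_add_distrib, ← Finset.mul_sum, ← Finset.mul_sum, h1, h2]
    ring

/-! ### integrability -/

theorem int_ip {v w : E3 → E3} (hv : CS univ v) (hw : CS univ w) :
    Integrable (fun x => inner ℝ (v x) (w x)) := by
  refine Continuous.integrable_of_hasCompactSupport ?_ ?_
  · exact hv.smooth.continuous.inner hw.smooth.continuous
  · refine hv.cpt.mono ?_
    intro x hx
    rw [Function.mem_support] at hx ⊢
    intro h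
    exact hx (by simp [h])

theorem cont_fd {v : E3 → E3} (hv : ContDiff ℝ (⊤ : ℕ∞) v) (e : E3) :
    Continuous (fun x => fderiv ℝ v x e) :=
  (hv.continuous_fderiv (by simp)).clm_apply continuous_const

theorem int_dir {v w : E3 → E3} (hv : CS univ v) (hw : CS univ w) :
    Integrable (fun x => ∑ i : Fin 3, inner ℝ (fderiv ℝ v x (cv i)) (fderiv ℝ w x (cv i))) := by
  refine Continuous.integrable_of_hasCompactSupport ?_ ?_
  · exact continuous_finsetSum _ fun i _ => (cont_fd hv.smooth _).inner (cont_fd hw.smooth _)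
  · refine (hv.cpt.fderiv ℝ).mono ?_
    intro x hx
    rw [Function.mem_support] at hx ⊢
    intro h
    exact hx (by simp [h])

theorem cs_mono {Ω U : Set E3} {v : E3 → E3} (hv : CS Ω v) (h : Ω ⊆ U) : CS U v :=
  ⟨hv.smooth, hv.cpt, hv.supp.trans h, hv.dv⟩

theorem ipr_comb {v w : E3 → E3} (hv : CS univ v) (hw : CS univ w) (a b : ℝ) :
    ipr (fun x => a • v x + b • w x) (fun x => a • v x + b • w x) =
      a ^ 2 * ipr v v + 2 * (a * b) * ipr v w + b ^ 2 * ipr w w := by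
  unfold ipr
  rw [← int3 (int_ip hv hv) (int_ip hv hw) (int_ip hw hw)]
  refine integral_congr_ae (Eventually.of_forall fun x => ?_)
  simp only [inner_add_left, inner_add_right, inner_smul_left, inner_smul_right,
    RCLike.conj_to_real]
  rw [real_inner_comm (v x) (w x)]
  ring

theorem dirf_comb {v w : E3 → E3} (hv : CS univ v) (hw : CS univ w) (a b : ℝ) :
    dirf (fun x => a • v x + b • w x) (fun x => a • v x + b • w x) =
      a ^ 2 * dirf v v + 2 * (a * b) * dirf v w + b ^ 2 * dirf w w := by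
  unfold dirf
  rw [← int3 (int_dir hv hv) (int_dir hv hw) (int_dir hw hw)]
  refine integral_congr_ae (Eventually.of_forall fun x => ?_)
  have h := fd_comb hv.smooth hw.smooth a b x
  simp only
  rw [h, Finset.mul_sum, Finset.mul_sum, Finset.mul_sum, ← Finset.sum_add_distrib,
    ← Finset.sum_add_distrib]
  refine Finset.sum_congr rfl fun i _ => ?_
  simp only [_root_.add_apply, _root_.smul_apply, inner_add_left,
    inner_add_right, inner_smul_left, inner_smul_right, RCLike.conj_to_real]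
  rw [real_inner_comm (fderiv ℝ v x (cv i)) (fderiv ℝ w x (cv i))]
  ring

theorem ipr_sc (p : E3) {r : ℝ} (hr : 0 < r) (F G : E3 → E3) :
    ipr (sc p r F) (sc p r G) = ipr F G := by
  have hs : √r ^ 2 = r := Real.sq_sqrt hr.le
  have hs0 : 0 < √r := Real.sqrt_pos.2 hr
  unfold ipr
  have h1 : ∀ x, inner ℝ (sc p r F x) (sc p r G x) =
      (fun y => ((r * √r)⁻¹) ^ 2 * inner ℝ (F y) (G y)) (r⁻¹ • (x - p)) := by
    intro x
    simp only [sc, inner_smul_left, inner_smul_right, RCLike.conj_to_real]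
    ring
  rw [integral_congr_ae (Eventually.of_forall h1), cov p hr
    (fun y => ((r * √r)⁻¹) ^ 2 * inner ℝ (F y) (G y)), integral_const_mul, ← mul_assoc]
  have h2 : r ^ 3 * ((r * √r)⁻¹) ^ 2 = 1 := by
    rw [inv_pow, mul_pow, hs]
    field_simp
  rw [h2, one_mul]

theorem dirf_sc (p : E3) {r : ℝ} (hr : 0 < r) {F G : E3 → E3} (hF : ContDiff ℝ (⊤ : ℕ∞) F)
    (hG : ContDiff ℝ (⊤ : ℕ∞) G) :
    dirf (sc p r F) (sc p r G) = (r ^ 2)⁻¹ * dirf F G := by
  have hs : √r ^ 2 = r := Real.sq_sqrt hr.le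
  have hs0 : 0 < √r := Real.sqrt_pos.2 hr
  unfold dirf
  have h1 : ∀ x, ∑ i : Fin 3, inner ℝ (fderiv ℝ (sc p r F) x (cv i))
        (fderiv ℝ (sc p r G) x (cv i)) =
      (fun y => ((r * √r)⁻¹ * r⁻¹) ^ 2 *
        ∑ i : Fin 3, inner ℝ (fderiv ℝ F y (cv i)) (fderiv ℝ G y (cv i))) (r⁻¹ • (x - p)) := by
    intro x
    simp only
    rw [Finset.mul_sum]
    refine Finset.sum_congr rfl fun i _ => ?_
    rw [fderiv_sc p r hF, fderiv_sc p r hG]
    simp only [inner_smul_left, inner_smul_right, RCLike.conj_to_real]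
    ring
  rw [integral_congr_ae (Eventually.of_forall h1), cov p hr
    (fun y => ((r * √r)⁻¹ * r⁻¹) ^ 2 *
        ∑ i : Fin 3, inner ℝ (fderiv ℝ F y (cv i)) (fderiv ℝ G y (cv i))),
    integral_const_mul, ← mul_assoc]
  have h2 : r ^ 3 * ((r * √r)⁻¹ * r⁻¹) ^ 2 = (r ^ 2)⁻¹ := by
    rw [mul_pow, inv_pow, inv_pow, mul_pow, hs]
    field_simp
  rw [h2]

/-! ### cross terms -/

theorem Sm_apply (x : E3) (i : Fin 3) : Sm x i = (![1, 1, -2] : Fin 3 → ℝ) i * x i := by
  fin_cases i <;> simp [Sm]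

theorem inner3 (x y : E3) : inner ℝ x y = ∑ i : Fin 3, x i * y i := by
  rw [PiLp.inner_apply]
  refine Finset.sum_congr rfl fun i _ => ?_
  simp [mul_comm]

/-- the coordinates of a field -/
theorem fd_coord {H : E3 → E3} (hH : ContDiff ℝ (⊤ : ℕ∞) H) (x v : E3) (i : Fin 3) :
    fderiv ℝ (fun y => H y i) x v = (fderiv ℝ H x v) i := by
  have hd := (hH.differentiable (by simp)).differentiableAt (x := x)
  have h := ((EuclideanSpace.proj (𝕜 := ℝ) i : E3 →L[ℝ] ℝ).hasFDerivAt.comp x hd.hasFDerivAt)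
  have h2 : HasFDerivAt (fun y => H y i)
    ((EuclideanSpace.proj (𝕜 := ℝ) i : E3 →L[ℝ] ℝ).comp (fderiv ℝ H x)) x := h
  rw [h2.fderiv]
  rfl

theorem coord_smooth {H : E3 → E3} (hH : ContDiff ℝ (⊤ : ℕ∞) H) (i : Fin 3) :
    ContDiff ℝ (⊤ : ℕ∞) (fun y => H y i) :=
  (EuclideanSpace.proj (𝕜 := ℝ) i : E3 →L[ℝ] ℝ).contDiff.comp hH

theorem coord_cpt {H : E3 → E3} (hH : HasCompactSupport H) (i : Fin 3) :
    HasCompactSupport (fun y => H y i) := by
  refine hH.mono ?_
  intro x hx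
  rw [Function.mem_support] at hx ⊢
  intro h
  exact hx (by simp [h])

/-- integration by parts against a smooth function -/
theorem ibp {φ g : E3 → ℝ} (hφ : ContDiff ℝ (⊤ : ℕ∞) φ) (hg : ContDiff ℝ (⊤ : ℕ∞) g)
    (hc : HasCompactSupport g) (v : E3) :
    ∫ x, φ x * fderiv ℝ g x v = -∫ x, fderiv ℝ φ x v * g x := by
  have c1 : Continuous (fun x => fderiv ℝ φ x v) :=
    (hφ.continuous_fderiv (by simp)).clm_apply continuous_const
  have c2 : Continuous (fun x => fderiv ℝ g x v) :=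
    (hg.continuous_fderiv (by simp)).clm_apply continuous_const
  refine integral_mul_fderiv_eq_neg_fderiv_mul_of_integrable ?_ ?_ ?_ ?_ ?_
  · exact (c1.mul hg.continuous).integrable_of_hasCompactSupport hc.mul_left
  · exact (hφ.continuous.mul c2).integrable_of_hasCompactSupport
      ((hc.fderiv_apply ℝ v).mul_left)
  · exact (hφ.continuous.mul hg.continuous).integrable_of_hasCompactSupport hc.mul_left
  · exact fun x _ => (hφ.differentiable (by simp)).differentiableAt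
  · exact fun x _ => (hg.differentiable (by simp)).differentiableAt

/-- the potential of `Sm` -/
noncomputable def pot (y : E3) : ℝ := ∑ i : Fin 3, (![1, 1, -2] : Fin 3 → ℝ) i / 2 * y i ^ 2

theorem pot_smooth : ContDiff ℝ (⊤ : ℕ∞) pot := by
  unfold pot
  refine ContDiff.sum fun i _ => ContDiff.mul contDiff_const (ContDiff.pow ?_ 2)
  exact (EuclideanSpace.proj (𝕜 := ℝ) i : E3 →L[ℝ] ℝ).contDiff

theorem fd_pot (y : E3) (i : Fin 3) : fderiv ℝ pot y (cv i) = Sm y i := by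
  have h : HasFDerivAt pot (∑ j : Fin 3, ((![1, 1, -2] : Fin 3 → ℝ) j / 2) •
      ((2 * y j) • (EuclideanSpace.proj (𝕜 := ℝ) j : E3 →L[ℝ] ℝ))) y := by
    unfold pot
    refine HasFDerivAt.fun_sum fun j _ => ?_
    have h1 : HasFDerivAt (fun y : E3 => y j) (EuclideanSpace.proj (𝕜 := ℝ) j : E3 →L[ℝ] ℝ) y :=
      (EuclideanSpace.proj (𝕜 := ℝ) j : E3 →L[ℝ] ℝ).hasFDerivAt
    have h2 := (h1.pow 2).const_mul ((![1, 1, -2] : Fin 3 → ℝ) j / 2)
    simpa using h2
  rw [h.fderiv, Sm_apply]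
  have hp : ∀ j : Fin 3, (EuclideanSpace.proj (𝕜 := ℝ) j : E3 →L[ℝ] ℝ) (cv i) = cv i j :=
    fun _ => rfl
  simp only [ContinuousLinearMap.sum_apply, _root_.smul_apply, hp,
    smul_eq_mul, cv, PiLp.single_apply]
  rw [Finset.sum_eq_single i]
  · simp
    ring
  · intro j _ hj
    simp [hj]
  · simp

theorem int_Sm {Ω : Set E3} {H : E3 → E3} (hH : CS Ω H) : ∫ y, inner ℝ (Sm y) (H y) = 0 := by
  have h0 : ∀ i : Fin 3, Integrable (fun y => Sm y i * H y i) := fun i => by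
    refine Continuous.integrable_of_hasCompactSupport ?_ (coord_cpt hH.cpt i).mul_left
    refine Continuous.mul ?_ (coord_smooth hH.smooth i).continuous
    exact (EuclideanSpace.proj (𝕜 := ℝ) i : E3 →L[ℝ] ℝ).continuous.comp Sm.continuous
  have h1 : ∫ y, inner ℝ (Sm y) (H y) = ∑ i : Fin 3, ∫ y, Sm y i * H y i := by
    rw [← integral_finsetSum _ fun i _ => h0 i]
    refine integral_congr_ae (Eventually.of_forall fun y => ?_)
    simp only
    rw [inner3]
  have h2 : ∀ i : Fin 3, ∫ y, Sm y i * H y i =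
      -∫ y, pot y * fderiv ℝ (fun y => H y i) y (cv i) := fun i => by
    rw [ibp pot_smooth (coord_smooth hH.smooth i) (coord_cpt hH.cpt i) (cv i), neg_neg]
    refine integral_congr_ae (Eventually.of_forall fun y => ?_)
    simp only
    rw [fd_pot]
  have h3 : ∀ i : Fin 3, Integrable (fun y => pot y * fderiv ℝ (fun y => H y i) y (cv i)) :=
    fun i => by
      refine Continuous.integrable_of_hasCompactSupport ?_
        (((coord_cpt hH.cpt i).fderiv_apply ℝ (cv i)).mul_left)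
      exact pot_smooth.continuous.mul
        (((coord_smooth hH.smooth i).continuous_fderiv (by simp)).clm_apply continuous_const)
  rw [h1]
  simp_rw [h2]
  rw [Finset.sum_neg_distrib, ← integral_finsetSum _ fun i _ => h3 i, neg_eq_zero]
  have h4 : ∀ y, ∑ i : Fin 3, pot y * fderiv ℝ (fun y => H y i) y (cv i) = 0 := fun y => by
    simp_rw [fd_coord hH.smooth]
    rw [← Finset.mul_sum]
    have := hH.dv y
    unfold dvg at this
    rw [this, mul_zero]
  simp_rw [h4]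
  simp

theorem Sm_cv (i : Fin 3) : Sm (cv i) = (![1, 1, -2] : Fin 3 → ℝ) i • cv i := by
  ext j
  rw [Sm_apply]
  simp only [cv, PiLp.single_apply, PiLp.smul_apply, smul_eq_mul]
  by_cases h : j = i
  · subst h; rfl
  · simp [h]

theorem int_dSm {Ω : Set E3} {H : E3 → E3} (hH : CS Ω H) :
    ∫ y, ∑ i : Fin 3, inner ℝ (Sm (cv i)) (fderiv ℝ H y (cv i)) = 0 := by
  have h1 : ∀ y, ∑ i : Fin 3, inner ℝ (Sm (cv i)) (fderiv ℝ H y (cv i)) =
      ∑ i : Fin 3, (fun _ => (![1, 1, -2] : Fin 3 → ℝ) i) y *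
        fderiv ℝ (fun y => H y i) y (cv i) := fun y => by
    refine Finset.sum_congr rfl fun i _ => ?_
    rw [fd_coord hH.smooth, Sm_cv, inner_smul_left, RCLike.conj_to_real]
    congr 1
    simp [cv, EuclideanSpace.inner_single_left]
  have h3 : ∀ i : Fin 3, Integrable (fun y => (fun _ : E3 => (![1, 1, -2] : Fin 3 → ℝ) i) y *
      fderiv ℝ (fun y => H y i) y (cv i)) :=
    fun i => by
      refine Continuous.integrable_of_hasCompactSupport ?_
        (((coord_cpt hH.cpt i).fderiv_apply ℝ (cv i)).mul_left)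
      exact continuous_const.mul
        (((coord_smooth hH.smooth i).continuous_fderiv (by simp)).clm_apply continuous_const)
  rw [integral_congr_ae (Eventually.of_forall h1), integral_finsetSum _ fun i _ => h3 i]
  refine Finset.sum_eq_zero fun i _ => ?_
  rw [ibp contDiff_const (coord_smooth hH.smooth i) (coord_cpt hH.cpt i) (cv i)]
  simp

/-! ### the main modes -/

theorem Ψ_near {Ψ H : E3 → E3} {a κ h q q' : ℝ} (P : Pk Ψ H a κ h q q') (p : E3) {r : ℝ}
    (hr : 0 < r) {x : E3} (hx : x ∈ ball p (q * r)) :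
    sc p r Ψ x = (a / (r ^ 2 * √r)) • Sm (x - p) := by
  have hm : r⁻¹ • (x - p) ∈ ball (0 : E3) q := by
    rw [mem_ball_zero_iff, norm_smul, norm_inv, Real.norm_of_nonneg hr.le]
    rw [mem_ball_iff_norm] at hx
    rw [inv_mul_lt_iff₀ hr]
    linarith
  unfold sc
  rw [P.Ψlin _ hm, map_smul, smul_smul, smul_smul]
  congr 1
  have hs0 : 0 < √r := Real.sqrt_pos.2 hr
  field_simp

theorem fdΨ_near {Ψ H : E3 → E3} {a κ h q q' : ℝ} (P : Pk Ψ H a κ h q q') (p : E3) {r : ℝ}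
    (hr : 0 < r) {x : E3} (hx : x ∈ ball p (q * r)) (v : E3) :
    fderiv ℝ (sc p r Ψ) x v = (a / (r ^ 2 * √r)) • Sm v := by
  have he : sc p r Ψ =ᶠ[𝓝 x] fun y => (a / (r ^ 2 * √r)) • Sm (y - p) := by
    filter_upwards [isOpen_ball.mem_nhds hx] with y hy using Ψ_near P p hr hy
  rw [he.fderiv_eq]
  have h1 : HasFDerivAt (fun y : E3 => (a / (r ^ 2 * √r)) • Sm (y - p))
      ((a / (r ^ 2 * √r)) • (Sm.comp (ContinuousLinearMap.id ℝ E3))) x :=
    (HasFDerivAt.comp (g := fun z : E3 => Sm z) x Sm.hasFDerivAt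
      ((hasFDerivAt_id x).sub_const p)).const_smul (a / (r ^ 2 * √r))
  rw [h1.fderiv]
  simp

/-- where `H` does not vanish -/
theorem H_near {Ψ H : E3 → E3} {a κ h q q' : ℝ} (P : Pk Ψ H a κ h q q') (p : E3) {r r' : ℝ}
    (hr' : 0 < r') (hle : r' ≤ r) {x : E3} (hx : r'⁻¹ • (x - p) ∈ tsupport H) :
    x ∈ ball p (q * r) := by
  have h1 := (P.Hcs.supp hx).1
  have q0 : 0 < q := P.q'0.trans P.qq
  rw [mem_ball_zero_iff, norm_smul, norm_inv, Real.norm_of_nonneg hr'.le,
    inv_mul_lt_iff₀ hr'] at h1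
  rw [mem_ball_iff_norm]
  have : r' * q ≤ q * r := by nlinarith
  linarith

theorem ipr_cross {Ψ H : E3 → E3} {a κ h q q' : ℝ} (P : Pk Ψ H a κ h q q') (p : E3) {r r' : ℝ}
    (hr : 0 < r) (hr' : 0 < r') (hle : r' ≤ r) : ipr (sc p r Ψ) (sc p r' H) = 0 := by
  unfold ipr
  have h1 : ∀ x, inner ℝ (sc p r Ψ x) (sc p r' H x) =
      (fun y => ((a / (r ^ 2 * √r)) * r' * (r' * √r')⁻¹) * inner ℝ (Sm y) (H y))
        (r'⁻¹ • (x - p)) := by
    intro x
    simp only
    by_cases hx : r'⁻¹ • (x - p) ∈ tsupport H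
    · rw [Ψ_near P p hr (H_near P p hr' hle hx)]
      have h2 : Sm (x - p) = r' • Sm (r'⁻¹ • (x - p)) := by
        rw [map_smul, smul_smul, mul_inv_cancel₀ hr'.ne', one_smul]
      rw [h2]
      simp only [sc, inner_smul_left, inner_smul_right, RCLike.conj_to_real]
      ring
    · have h2 : H (r'⁻¹ • (x - p)) = 0 := image_eq_zero_of_notMem_tsupport hx
      simp [sc, h2]
  rw [integral_congr_ae (Eventually.of_forall h1), cov p hr'
    (fun y => ((a / (r ^ 2 * √r)) * r' * (r' * √r')⁻¹) * inner ℝ (Sm y) (H y)),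
    integral_const_mul, int_Sm P.Hcs]
  simp

theorem dirf_cross {Ψ H : E3 → E3} {a κ h q q' : ℝ} (P : Pk Ψ H a κ h q q') (p : E3) {r r' : ℝ}
    (hr : 0 < r) (hr' : 0 < r') (hle : r' ≤ r) : dirf (sc p r Ψ) (sc p r' H) = 0 := by
  unfold dirf
  have h1 : ∀ x, ∑ i : Fin 3, inner ℝ (fderiv ℝ (sc p r Ψ) x (cv i))
        (fderiv ℝ (sc p r' H) x (cv i)) =
      (fun y => ((a / (r ^ 2 * √r)) * ((r' * √r')⁻¹ * r'⁻¹)) *
        ∑ i : Fin 3, inner ℝ (Sm (cv i)) (fderiv ℝ H y (cv i))) (r'⁻¹ • (x - p)) := by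
    intro x
    simp only
    rw [Finset.mul_sum]
    refine Finset.sum_congr rfl fun i _ => ?_
    rw [fderiv_sc p r' P.Hcs.smooth]
    by_cases hx : r'⁻¹ • (x - p) ∈ tsupport H
    · rw [fdΨ_near P p hr (H_near P p hr' hle hx)]
      simp only [inner_smul_left, inner_smul_right, RCLike.conj_to_real]
      ring
    · have h2 : fderiv ℝ H (r'⁻¹ • (x - p)) = 0 :=
        image_eq_zero_of_notMem_tsupport fun hh => hx (tsupport_fderiv_subset ℝ hh)
      simp [h2]
  rw [integral_congr_ae (Eventually.of_forall h1), cov p hr'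
    (fun y => ((a / (r ^ 2 * √r)) * ((r' * √r')⁻¹ * r'⁻¹)) *
        ∑ i : Fin 3, inner ℝ (Sm (cv i)) (fderiv ℝ H y (cv i))),
    integral_const_mul, int_dSm P.Hcs]
  simp

theorem dirf_nonneg (v : E3 → E3) : 0 ≤ dirf v v := by
  unfold dirf
  exact integral_nonneg fun x => Finset.sum_nonneg fun i _ => real_inner_self_nonneg

theorem par_q' {Ψ H : E3 → E3} {a κ h q q' : ℝ} (P : Pk Ψ H a κ h q q') : q' < 1 :=
  P.qq.trans P.q1

theorem par_step {Ψ H : E3 → E3} {a κ h q q' G δ : ℝ} {r α ε lm L : ℕ → ℝ}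
    (P : Pk Ψ H a κ h q q') (Q : Par a κ h q' G δ r α ε lm L) (n : ℕ) : r (n + 1) ≤ r n := by
  have h1 := Q.rstep n
  have h2 := Q.r0 n
  have h3 := par_q' P
  nlinarith

theorem par_anti {Ψ H : E3 → E3} {a κ h q q' G δ : ℝ} {r α ε lm L : ℕ → ℝ}
    (P : Pk Ψ H a κ h q q') (Q : Par a κ h q' G δ r α ε lm L) : Antitone r :=
  antitone_nat_of_succ_le (par_step P Q)

theorem t_MM : S_MM := by
  intro p Ψ H a κ h q q' G δ r α ε lm L P Q
  have q0 : 0 < q := P.q'0.trans P.qq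
  have cΨ : ∀ n, CS (ball p (r n)) (sc p (r n) Ψ) := fun n =>
    cs_sc p (Q.r0 n) P.Ψcs fun x hx => by
      rw [mem_ball_zero_iff, norm_smul, norm_inv, Real.norm_of_nonneg (Q.r0 n).le,
        inv_mul_lt_iff₀ (Q.r0 n), mul_one] at hx
      rwa [mem_ball_iff_norm]
  have cH : ∀ n, CS (ball p (r n)) (sc p (r (n + 1)) H) := fun n =>
    cs_sc p (Q.r0 (n + 1)) P.Hcs fun x hx => by
      have h1 := hx.1
      rw [mem_ball_zero_iff, norm_smul, norm_inv, Real.norm_of_nonneg (Q.r0 (n + 1)).le,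
        inv_mul_lt_iff₀ (Q.r0 (n + 1))] at h1
      rw [mem_ball_iff_norm]
      have h2 := par_step P Q n
      have h3 := Q.r0 (n + 1)
      have h4 := P.q1
      nlinarith
  have lin : ∀ n, ∀ x ∈ ball p (r (n + 1)), α n • sc p (r n) Ψ x = Am a r α n • Sm (x - p) := by
    intro n x hx
    have h1 : x ∈ ball p (q * r n) := by
      refine ball_subset_ball ?_ hx
      have h2 := Q.rstep n
      have h3 := Q.r0 n
      have h4 := P.qq
      nlinarith
    rw [Ψ_near P p (Q.r0 n) h1, smul_smul]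
    congr 1
    unfold Am
    ring
  refine ⟨fun n => cs_comb (cΨ n) (cH n) _ _, fun n x hx => ?_, fun n m hm x hx => ?_, fun n => ?_,
    fun n => ⟨dirf_nonneg _, ?_⟩⟩
  · show α n • sc p (r n) Ψ x + ε n • sc p (r (n + 1)) H x = _
    rw [lin n x hx]
  · show α n • sc p (r n) Ψ x + ε n • sc p (r (n + 1)) H x = _
    have h1 : r m ≤ r (n + 2) := par_anti P Q hm
    have h2 := Q.rstep (n + 1)
    have h3 := Q.r0 (n + 1)
    have h4 := par_q' P
    have hx1 : x ∈ ball p (r (n + 1)) := by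
      refine ball_subset_ball ?_ hx
      nlinarith
    rw [lin n x hx1]
    have h5 : H ((r (n + 1))⁻¹ • (x - p)) = 0 := by
      refine image_eq_zero_of_notMem_tsupport fun hh => ?_
      have h6 := (P.Hcs.supp hh).2
      refine h6 ?_
      rw [mem_closedBall_zero_iff, norm_smul, norm_inv, Real.norm_of_nonneg h3.le,
        inv_mul_le_iff₀ h3]
      rw [mem_ball_iff_norm] at hx
      nlinarith
    have h7 : sc p (r (n + 1)) H x = 0 := by simp [sc, h5]
    rw [h7]
    simp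
  · show ipr (fun x => α n • sc p (r n) Ψ x + ε n • sc p (r (n + 1)) H x)
      (fun x => α n • sc p (r n) Ψ x + ε n • sc p (r (n + 1)) H x) = 1
    rw [ipr_comb (cs_mono (cΨ n) (subset_univ _)) (cs_mono (cH n) (subset_univ _)),
      ipr_cross P p (Q.r0 n) (Q.r0 (n + 1)) (par_step P Q n), ipr_sc p (Q.r0 n),
      ipr_sc p (Q.r0 (n + 1)), P.Ψn, P.Hn]
    have := Q.αε n
    linarith
  · show dirf (fun x => α n • sc p (r n) Ψ x + ε n • sc p (r (n + 1)) H x)
      (fun x => α n • sc p (r n) Ψ x + ε n • sc p (r (n + 1)) H x) * r n ^ 2 ≤ _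
    rw [dirf_comb (cs_mono (cΨ n) (subset_univ _)) (cs_mono (cH n) (subset_univ _)),
      dirf_cross P p (Q.r0 n) (Q.r0 (n + 1)) (par_step P Q n),
      dirf_sc p (Q.r0 n) P.Ψcs.smooth P.Ψcs.smooth,
      dirf_sc p (Q.r0 (n + 1)) P.Hcs.smooth P.Hcs.smooth]
    have d1 := dirf_nonneg Ψ
    have d2 := dirf_nonneg H
    have r1 := Q.r0 n
    have r2 := Q.r0 (n + 1)
    have e1 := Q.αε n
    have e2 : α n ^ 2 ≤ 1 := by nlinarith [sq_nonneg (ε n)]
    have e3 : ε n ^ 2 * r n ^ 2 / r (n + 1) ^ 2 ≤ 1 := by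
      rw [div_le_one (by positivity)]
      exact Q.εr n
    have e4 : (α n ^ 2 * ((r n ^ 2)⁻¹ * dirf Ψ Ψ) + 2 * (α n * ε n) * 0 +
        ε n ^ 2 * ((r (n + 1) ^ 2)⁻¹ * dirf H H)) * r n ^ 2 =
        α n ^ 2 * dirf Ψ Ψ + ε n ^ 2 * r n ^ 2 / r (n + 1) ^ 2 * dirf H H := by
      field_simp
      ring
    rw [e4]
    have e5 := mul_le_mul_of_nonneg_right e2 d1
    have e6 := mul_le_mul_of_nonneg_right e3 d2
    linarith

end Pool.Agent.Y841.SK
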